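import Pool.Agent.L0h99.MN.Stm

set_option autoImplicit false

/-! # CNN: sets with short paths are connected -/

namespace Pool.Agent.L0h68.MN

open Finset Pool.Agent.L0h99.MN

theorem CNN : St_CNN := by
  intro V _ _ G P hP h
  refine ⟨hP, fun X hX hXn hXP => ?_⟩
  obtain ⟨x, hx⟩ := hXn
  obtain ⟨z, hz, hzX⟩ : ∃ z ∈ P, z ∉ X := by
    by_contra hcon
    push Not at hcon
    exact hXP (Finset.Subset.antisymm hX hcon)
  obtain ⟨p, -, -, hp⟩ := h x (hX hx) z hz
  obtain ⟨d, hd, h1, h2⟩ := p.exists_boundary_dart (X : Set V) (by exact_mod_cast hx) (by exact_mod_cast hzX)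
  refine ⟨d.fst, by exact_mod_cast h1, d.snd, ?_, d.adj⟩
  rw [mem_sdiff]
  exact ⟨hp _ (p.dart_snd_mem_support_of_mem_darts hd), by exact_mod_cast h2⟩

end Pool.Agent.L0h68.MN
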